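import Pool.Agent.Q25.LF.Blocks

/-!
# Eigenvalue `-1` in locally commutative free rotation groups

For every `n ≥ 6` there is a locally commutative non-abelian free subgroup of `SO_n(ℝ)` which
contains an element with the eigenvalue `-1`.
-/

set_option autoImplicit false

namespace Pool.Agent.Results.MP_6087e2_al.AllDimensions

open Matrix

/-- `SO_n(ℝ)`: the real `n × n` matrices `A` with `A Aᵀ = 1` and determinant `1`. -/
def SO (n : ℕ) : Subgroup (Matrix (Fin n) (Fin n) ℝ)ˣ where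
  carrier := {A | (A : Matrix (Fin n) (Fin n) ℝ) * (A : Matrix (Fin n) (Fin n) ℝ)ᵀ = 1 ∧
    (A : Matrix (Fin n) (Fin n) ℝ).det = 1}
  one_mem' := (Pool.Agent.Q25.LF.SOg (Fin n)).one_mem
  mul_mem' hA hB := (Pool.Agent.Q25.LF.SOg (Fin n)).mul_mem hA hB
  inv_mem' hA := (Pool.Agent.Q25.LF.SOg (Fin n)).inv_mem hA

/-- `x` lies on the unit sphere. -/
def OnSphere {n : ℕ} (x : Fin n → ℝ) : Prop := ∑ i, x i ^ 2 = 1

/-- `G` is locally commutative: two elements of `G` with a common fixed point on the unit sphere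
commute. -/
def LocallyCommutative {n : ℕ} (G : Subgroup (Matrix (Fin n) (Fin n) ℝ)ˣ) : Prop :=
  ∀ g ∈ G, ∀ h ∈ G,
    (∃ x : Fin n → ℝ, OnSphere x ∧ (g : Matrix (Fin n) (Fin n) ℝ) *ᵥ x = x ∧
      (h : Matrix (Fin n) (Fin n) ℝ) *ᵥ x = x) → g * h = h * g

/-- `G` is a free group of rank at least two. -/
def IsNonabelianFree {H : Type} [Group H] (G : Subgroup H) : Prop :=
  ∃ ι : Type, Nontrivial ι ∧ Nonempty (FreeGroup ι ≃* G)

/-- `-1` is an eigenvalue of `g`. -/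
def HasEigenvalueNegOne {n : ℕ} (g : (Matrix (Fin n) (Fin n) ℝ)ˣ) : Prop :=
  ∃ x : Fin n → ℝ, x ≠ 0 ∧ (g : Matrix (Fin n) (Fin n) ℝ) *ᵥ x = -x

/-- **Q1.** The dimensions `n ≥ 6` for which some locally commutative non-abelian free subgroup of
`SO_n(ℝ)` contains an element with the eigenvalue `-1` are all `n ≥ 6`. -/
theorem result (n : ℕ) (hn : 6 ≤ n) :
    ∃ G : Subgroup (Matrix (Fin n) (Fin n) ℝ)ˣ, G ≤ SO n ∧ IsNonabelianFree G ∧
      LocallyCommutative G ∧ ∃ g ∈ G, HasEigenvalueNegOne g := by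
  obtain ⟨ρ, hρ⟩ := Pool.Agent.Q25.LF.exists_good n hn
  refine ⟨ρ.range, ?_, ?_, ?_, ?_⟩
  · rintro _ ⟨w, rfl⟩
    exact hρ.so w
  · exact ⟨Bool, inferInstance, ⟨MonoidHom.ofInjective hρ.inj⟩⟩
  · rintro _ ⟨u, rfl⟩ _ ⟨v, rfl⟩ ⟨x, hx, hu, hv⟩
    rw [← map_mul, ← map_mul]
    congr 1
    refine hρ.lc u v x ?_ hu hv
    rintro rfl
    simp [OnSphere] at hx
  · exact ⟨_, ⟨_, rfl⟩, hρ.neg⟩

end Pool.Agent.Results.MP_6087e2_al.AllDimensions
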